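import Pool.Agent.Lib_helper47.RMain

/-!
# There is no continuous isometric recoding of pseudonorm codes by norm codes

Negative answer to Q1.  The definitions (`P`, `ext`, `X`, `PInf`, `BInf`) are in
`Pool/Agent/Lib_helper47/RDefs.lean`.

Idea of the proof.  Over the unit ball `K` of the dual of `ℓ²` with the weak-* topology consider the
seminorms `⟨h,h⟩_x = ‖h‖² - x(h)²`; this continuous field of Hilbert spaces has no nonvanishing
continuous section (Brouwer).  Let `f_k` be an overcomplete sequence (every subsequence is total)
and `μ_x(a) = |f_a|_x + ∑ 8^{-k} |⟨f_a, f_k⟩_x|`, where `f_a = ∑ a_k f_k`.  The jumps of the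
one-sided derivatives of the norm determine the functionals `⟨·, f_k⟩_x` up to a common sign, also
in the limit along ultrafilters, so from a continuous recoding `Φ` one gets a section of the field,
the image of `e_0`, which is nonvanishing (the code `Φ(μ_x)` is a norm) and continuous up to sign;
the sign can be chosen continuously because `K` is contractible.
-/

namespace Pool.Agent.Results.MP_63dc35_an.NoContinuousRecoding

open Pool.Agent.Lib_helper47.R

/-- There is no continuous map `Φ : 𝒫_∞ → ℬ` such that `X_{Φ(μ)}` is linearly isometric to `X_μ`
for every `μ ∈ 𝒫_∞`. -/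
theorem result : ¬ ∃ Φ : PInf → BInf, Continuous Φ ∧
    ∀ μ : PInf, Isometric (Φ μ).code μ.code := by
  rintro ⟨Φ, hΦ, hiso⟩
  exact main Φ hΦ hiso

end Pool.Agent.Results.MP_63dc35_an.NoContinuousRecoding
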